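import Pool.Agent.Q5.SG.Stm2
import Pool.Agent.Q111.EX.Unr

/-! # Project SG, job IG: inertia groups in an extension which is unramified at one prime -/

set_option autoImplicit false
set_option linter.all false

namespace Pool.Agent.Q277.SG

open NumberField IsDedekindDomain Pool.Agent.Q5.BR Pool.Agent.Q92.AR Pool.Agent.Q20.EX
  Pool.Agent.Q5.SG

open Ideal in
/-- The inertia group of a prime above an unramified prime of `L` is contained in `Gal(Ω/L)`. -/
theorem inert_lift {K L Ω : Type} [Field K] [NumberField K] [Field L] [NumberField L] [Field Ω]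
    [NumberField Ω] [Algebra K L] [Algebra K Ω] [Algebra L Ω] [IsScalarTower K L Ω] [IsGalois K Ω]
    (v : HeightOneSpectrum (𝓞 K)) (w : HeightOneSpectrum (𝓞 L)) (hw : w.under (𝓞 K) = v)
    (hvw : ¬ v.asIdeal.map (algebraMap (𝓞 K) (𝓞 L)) ≤ w.asIdeal ^ 2) :
    ∃ W : HeightOneSpectrum (𝓞 Ω), W.under (𝓞 K) = v ∧ ∀ g : Ω ≃ₐ[K] Ω, Inert W g →
      ∃ h : Ω ≃ₐ[L] Ω, Inert W h ∧ AlgEquiv.restrictScalars K h = g := by
  have hG : IsGalois L Ω := IsGalois.tower_top_of_isGalois K L Ω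
  have huP : w.asIdeal.IsPrime := w.isPrime
  obtain ⟨⟨Q, hQ, hQP⟩⟩ := (inferInstance : Nonempty (primesOver w.asIdeal (𝓞 Ω)))
  have huv : w.asIdeal.under (𝓞 K) = v.asIdeal := by
    rw [← hw]; rfl
  have hp : (w.asIdeal.under (𝓞 K)).IsPrime := inferInstance
  have hPp : w.asIdeal.LiesOver (w.asIdeal.under (𝓞 K)) := inferInstance
  have hQp : Q.LiesOver (w.asIdeal.under (𝓞 K)) := LiesOver.trans Q w.asIdeal (w.asIdeal.under (𝓞 K))
  have hP0 : w.asIdeal ≠ ⊥ := w.ne_bot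
  have hp0 : w.asIdeal.under (𝓞 K) ≠ ⊥ := under_ne_bot (𝓞 K) hP0
  have hQ0 : Q ≠ ⊥ := ne_bot_of_liesOver_of_ne_bot hP0 Q
  have hm1 : (w.asIdeal.under (𝓞 K)).IsMaximal := hp.isMaximal hp0
  have hm2 : w.asIdeal.IsMaximal := huP.isMaximal hP0
  have : PerfectField (w.asIdeal.under (𝓞 K)).ResidueField := by
    have hf : Finite (𝓞 K ⧸ w.asIdeal.under (𝓞 K)) := finiteQuotientOfFreeOfNeBot _ hp0
    have hf2 : Finite (w.asIdeal.under (𝓞 K)).ResidueField :=
      Finite.of_surjective _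
        (bijective_algebraMap_quotient_residueField (w.asIdeal.under (𝓞 K))).2
    infer_instance
  have : PerfectField w.asIdeal.ResidueField := by
    have hf : Finite (𝓞 L ⧸ w.asIdeal) := finiteQuotientOfFreeOfNeBot _ hP0
    have hf2 : Finite w.asIdeal.ResidueField :=
      Finite.of_surjective _ (bijective_algebraMap_quotient_residueField w.asIdeal).2
    infer_instance
  have e1 : Nat.card (Q.inertia Gal(Ω/K)) = Q.ramificationIdx (𝓞 K) := by
    rw [card_inertia_eq_ramificationIdxIn (w.asIdeal.under (𝓞 K)) Q,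
      ramificationIdxIn_eq_ramificationIdx (w.asIdeal.under (𝓞 K)) Q Gal(Ω/K)]
  have e2 : Nat.card (Q.inertia Gal(Ω/L)) = Q.ramificationIdx (𝓞 L) := by
    rw [card_inertia_eq_ramificationIdxIn w.asIdeal Q,
      ramificationIdxIn_eq_ramificationIdx w.asIdeal Q Gal(Ω/L)]
  have e3 := ramificationIdx_tower (R := 𝓞 K) w.asIdeal Q
  rw [← e1, ← e2] at e3
  have h9 : w.asIdeal.ramificationIdx (𝓞 K) ≤ 1 := by
    have hmap : (w.asIdeal.under (𝓞 K)).map (algebraMap (𝓞 K) (𝓞 L)) ≠ ⊥ :=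
      map_ne_bot_of_ne_bot hp0
    rw [IsDedekindDomain.ramificationIdx_eq_multiplicity (w.asIdeal.under (𝓞 K)) w.asIdeal hmap]
    have hfin : FiniteMultiplicity w.asIdeal
        ((w.asIdeal.under (𝓞 K)).map (algebraMap (𝓞 K) (𝓞 L))) :=
      FiniteMultiplicity.of_prime_left (Ideal.prime_of_isPrime hP0 huP) hmap
    by_contra hcon
    push Not at hcon
    apply hvw
    have h1 : w.asIdeal ^ 2 ∣ (w.asIdeal.under (𝓞 K)).map (algebraMap (𝓞 K) (𝓞 L)) :=
      pow_dvd_of_le_multiplicity hcon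
    rw [Ideal.dvd_iff_le, huv] at h1
    exact h1
  let W : HeightOneSpectrum (𝓞 Ω) := ⟨Q, hQ, hQ0⟩
  have hWv : W.under (𝓞 K) = v := by
    apply HeightOneSpectrum.ext
    rw [← huv]
    exact hQp.over.symm
  refine ⟨W, hWv, ?_⟩
  let f : Q.inertia Gal(Ω/L) → Q.inertia Gal(Ω/K) :=
    fun σ => ⟨AlgEquiv.restrictScalars K σ.1, fun x => σ.2 x⟩
  have hf : Function.Injective f := by
    intro σ τ hστ
    apply Subtype.ext
    apply AlgEquiv.ext
    intro x
    exact DFunLike.congr_fun (congrArg Subtype.val hστ) x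
  have hcard : Nat.card (Q.inertia Gal(Ω/K)) ≤ Nat.card (Q.inertia Gal(Ω/L)) := by
    rw [e3]
    exact (Nat.mul_le_mul_right _ h9).trans (one_mul _).le
  have hsurj : Function.Surjective f := by
    haveI : Finite (Q.inertia Gal(Ω/K)) := inferInstance
    haveI : Finite (Q.inertia Gal(Ω/L)) := inferInstance
    have h10 : Nat.card (Q.inertia Gal(Ω/L)) = Nat.card (Q.inertia Gal(Ω/K)) :=
      le_antisymm (Nat.card_le_card_of_injective f hf) hcard
    exact ((Nat.bijective_iff_injective_and_card f).2 ⟨hf, h10⟩).2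
  intro g hg
  have hgQ : g ∈ Q.inertia Gal(Ω/K) := by
    intro y
    have h3 := hg y
    have h4 : (W.valuation Ω) (algebraMap (𝓞 Ω) Ω (g • y - y)) < 1 := h3
    exact (W.valuation_lt_one_iff_mem (K := Ω) _).1 h4
  obtain ⟨σ, hσ⟩ := hsurj ⟨g, hgQ⟩
  refine ⟨σ.1, fun y => ?_, congrArg Subtype.val hσ⟩
  have h3 := σ.2 y
  have h4 : (W.valuation Ω) (algebraMap (𝓞 Ω) Ω (σ.1 • y - y)) < 1 :=
    (W.valuation_lt_one_iff_mem (K := Ω) _).2 h3
  exact h4

/-- **Job IG.** -/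
theorem ig : S_IG := by
  intro K L M Ω _ _ _ _ _ _ _ _ _ _ _ _ _ _ _ _ _ ψ hψ v w hw hvw h
  obtain ⟨W, hW, hlift⟩ := inert_lift (Ω := Ω) v w hw hvw
  refine Pool.Agent.Q111.EX.unram_of_inert (M := Ω) v fun W' hW' g hg x => ?_
  obtain ⟨τ, hτ⟩ := Pool.Agent.TeamU.exists_act (k := K) (L := Ω) (P := W) (Q := W') (v := v)
    (by rw [← hW]; rfl) (by rw [← hW']; rfl)
  -- the conjugate is in the inertia group of `W`
  have h1 : Inert W (τ⁻¹ * g * τ) := by
    intro y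
    have h2 := hg (NumberField.RingOfIntegers.mapRingEquiv τ.toRingEquiv y)
    rw [← hτ] at h2
    have h3 : ((NumberField.RingOfIntegers.mapRingEquiv τ.toRingEquiv y : 𝓞 Ω) : Ω) = τ (y : Ω) :=
      rfl
    rw [h3] at h2
    have h4 : g (τ (y : Ω)) - τ (y : Ω) = τ ((τ⁻¹ * g * τ) (y : Ω) - (y : Ω)) := by
      rw [map_sub, AlgEquiv.mul_apply, AlgEquiv.mul_apply, ← AlgEquiv.mul_apply τ,
        mul_inv_cancel, AlgEquiv.one_apply]
    rw [h4, Pool.Agent.TeamU.val_act] at h2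
    exact h2
  obtain ⟨k, hk1, hk2⟩ := hlift _ h1
  have h5 := h W k hk1
  rw [hk2] at h5
  have h6 : AlgEquiv.restrictNormal (τ⁻¹ * g * τ) M = 1 := hψ (by rw [h5, map_one])
  have h7 : ∀ y : M, (τ⁻¹ * g * τ) (algebraMap M Ω y) = algebraMap M Ω y := by
    intro y
    rw [← AlgEquiv.restrictNormal_commutes, h6, AlgEquiv.one_apply]
  have h8 := h7 (AlgEquiv.restrictNormal τ⁻¹ M x)
  rw [AlgEquiv.restrictNormal_commutes] at h8
  have h9 := congrArg τ h8
  rw [← AlgEquiv.mul_apply, ← AlgEquiv.mul_apply, ← AlgEquiv.mul_apply] at h9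
  rw [← mul_assoc, ← mul_assoc, mul_inv_cancel, one_mul, mul_assoc, mul_inv_cancel, mul_one,
    AlgEquiv.one_apply] at h9
  exact h9

end Pool.Agent.Q277.SG
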