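import Pool.Agent.Q277.SG.BTA

/-! # Project SG, job BT: the element `β` -/

set_option autoImplicit false
set_option linter.all false

namespace Pool.Agent.Q277.SG

open NumberField Module Pool.Agent.Y18.LC Pool.Agent.Q5.SG

section
variable {p : ℕ} [Fact p.Prime] {K : Type} [Field K] [NumberField K] {S : Set (K →+* ℂ_[p])}

theorem pinv_lt {k : ℕ} (hk : 1 ≤ k) : ((p : ℝ)⁻¹) ^ k < 1 := by
  have hp : (1 : ℝ) < p := by exact_mod_cast (Fact.out : p.Prime).one_lt
  exact pow_lt_one₀ (by positivity) (inv_lt_one_of_one_lt₀ hp) (by omega)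

theorem cl_norm {k : ℕ} (hk : 1 ≤ k) {x : K} (h : Cl S k x) (σ : K →+* ℂ_[p])
    (hσ : σ.comp (algebraMap K K) ∈ S) : ‖σ x‖ = 1 :=
  norm_of_sub_one ((h σ hσ).trans_lt (pinv_lt hk))

/-- the elements which are `p ^ k`-close to `1` -/
noncomputable def AA (S : Set (K →+* ℂ_[p])) (k : ℕ) (hk : 1 ≤ k) : Subgroup Kˣ where
  carrier := {x | Cl S k (x : K)}
  mul_mem' := by
    intro a b ha hb
    exact Cl.mul ha hb fun σ hσ => (cl_norm hk ha σ hσ).le
  one_mem' := Cl.one
  inv_mem' := by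
    intro a ha σ hσ
    have h1 : σ ((a⁻¹ : Kˣ) : K) - 1 = - (σ ((a⁻¹ : Kˣ) : K) * (σ (a : K) - 1)) := by
      rw [mul_sub, ← map_mul, Units.inv_mul, map_one]
      ring
    have h2 : ‖σ ((a⁻¹ : Kˣ) : K)‖ = 1 := by
      rw [Units.val_inv_eq_inv_val, map_inv₀, norm_inv, cl_norm hk ha σ hσ, inv_one]
    rw [h1, norm_neg, norm_mul, h2, one_mul]
    exact ha σ hσ

theorem mem_AA {k : ℕ} {hk : 1 ≤ k} {x : Kˣ} : x ∈ AA S k hk ↔ Cl S k (x : K) := Iff.rfl

theorem pow_AA (hPW : S_PW) (hp2 : p ≠ 2) {k : ℕ} (hk : 1 ≤ k) {x : Kˣ} (hx : x ∈ AA S k hk)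
    (s : ℕ) : x ^ p ^ s ∈ AA S (k + s) (by omega) := by
  intro σ hσ
  have h1 : ‖σ (x : K) - 1‖ ≤ (p : ℝ)⁻¹ := by
    have h2 := Cl.mono hx hk σ hσ
    rwa [pow_one] at h2
  rw [Units.val_pow_eq_pow_val, map_pow, hPW p hp2 _ h1 s, add_comm k s, pow_add]
  exact mul_le_mul_of_nonneg_left (hx σ hσ) (by positivity)

theorem norm_p (σ : K →+* ℂ_[p]) : ‖σ (p : K)‖ = (p : ℝ)⁻¹ := by
  rw [map_natCast]
  have h1 : ((p : ℕ) : ℂ_[p]) = algebraMap ℚ_[p] ℂ_[p] (p : ℚ_[p]) := by rw [map_natCast]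
  rw [h1, norm_algebraMap', Padic.norm_p]

theorem rank_eq (F K : Type) [Field F] [NumberField F] [Field K] [NumberField K]
    [IsTotallyComplex K] [Algebra F K] (h : finrank F K = 2) :
    Units.rank K + 1 = finrank ℚ F := by
  have h1 : finrank ℚ F * finrank F K = finrank ℚ K := finrank_mul_finrank ℚ F K
  have h2 := InfinitePlace.card_add_two_mul_card_eq_rank K
  have h3 : InfinitePlace.nrRealPlaces K = 0 := NumberField.nrRealPlaces_eq_zero_iff.2 inferInstance
  have h4 := InfinitePlace.card_eq_nrRealPlaces_add_nrComplexPlaces K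
  have h5 : 0 < finrank ℚ F := finrank_pos
  rw [h] at h1
  have h6 : Units.rank K = Fintype.card (InfinitePlace K) - 1 := rfl
  rw [h6]
  omega

end

/-- **Job BT.** -/
theorem bt : J_BT := by
  intro hSM hPW hDG p _ hp2 F K _ _ _ _ _ _ _ hdeg hun S hCM hPC n hn
  classical
  have hp : p.Prime := Fact.out
  obtain ⟨I, hI, hIn⟩ := hDG p F K hdeg hun S hCM hPC
  have hrank := rank_eq F K hdeg
  have hcard : Nat.card (𝓞 K ⧸ I) = p ^ finrank ℚ F := by
    rw [← hIn]
    rfl
  -- `S` is not empty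
  obtain ⟨σ₀, hσ₀⟩ : S.Nonempty := by
    by_contra hS
    rw [Set.not_nonempty_iff_eq_empty] at hS
    have h1 : I = ⊤ := by
      rw [Ideal.eq_top_iff_one, hI]
      intro σ hσ
      rw [hS] at hσ
      exact absurd hσ (Set.notMem_empty σ)
    rw [h1, Ideal.absNorm_top] at hIn
    have h2 : 0 < finrank ℚ F := finrank_pos
    have h3 := Nat.one_lt_pow h2.ne' hp.one_lt
    omega
  have hcomp : ∀ σ : K →+* ℂ_[p], σ.comp (algebraMap K K) = σ := fun σ => RingHom.comp_id σ
  -- the key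
  have key : ∃ β : 𝓞 K, β ≠ 0 ∧ Cl S 1 (β : K) ∧
      ∀ ε ∈ EU K, ¬ Cl S (n + 1) ((ε : K) * (β : K) ^ p ^ (n - 1)) := by
    by_contra hcon
    push Not at hcon
    let b : 𝓞 K ⧸ I → 𝓞 K := Quotient.out
    have hb : ∀ c, Ideal.Quotient.mk I (b c) = c := fun c => Quotient.out_eq c
    let β : 𝓞 K ⧸ I → 𝓞 K := fun c => 1 + p * b c
    have hβK : ∀ c, ((β c : 𝓞 K) : K) = 1 + (p : K) * (b c : K) := by
      intro c
      change algebraMap (𝓞 K) K (1 + p * b c) = _
      rw [map_add, map_one, map_mul, map_natCast]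
    have hβcl : ∀ c, Cl S 1 ((β c : 𝓞 K) : K) := by
      intro c σ hσ
      rw [hβK, map_add, map_one, add_sub_cancel_left, map_mul, norm_mul, norm_p, pow_one]
      exact mul_le_of_le_one_right (by positivity) (norm_int_le σ (b c))
    have hβ0 : ∀ c, β c ≠ 0 := by
      intro c h
      have h1 := cl_norm le_rfl (hβcl c) σ₀ (by rw [hcomp]; exact hσ₀)
      rw [h] at h1
      have h2 : ((0 : 𝓞 K) : K) = 0 := rfl
      rw [h2, map_zero, norm_zero] at h1
      exact zero_ne_one h1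
    have hβK0 : ∀ c, ((β c : 𝓞 K) : K) ≠ 0 := by
      intro c h
      apply hβ0 c
      apply RingOfIntegers.ext
      rw [h]
      rfl
    choose ε hε1 hε2 using fun c => hcon (β c) (hβ0 c) (hβcl c)
    choose e he using fun c => mem_EU.1 (hε1 c)
    let U : (𝓞 K)ˣ →* Kˣ := Units.map (algebraMap (𝓞 K) K).toMonoidHom
    have hUe : ∀ c, U (e c) = ε c := fun c => Units.ext (he c)
    let bu : 𝓞 K ⧸ I → Kˣ := fun c => Units.mk0 _ (hβK0 c)
    have hbu : ∀ c, bu c ∈ AA S 1 le_rfl := hβcl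
    have hX : ∀ c, ε c * bu c ^ p ^ (n - 1) ∈ AA S (n + 1) (by omega) := by
      intro c
      have h1 := hε2 c
      rw [mem_AA, Units.val_mul, Units.val_pow_eq_pow_val]
      exact h1
    have hbun : ∀ c, bu c ^ p ^ (n - 1) ∈ AA S n hn := by
      intro c
      have h1 := pow_AA hPW hp2 le_rfl (hbu c) (n - 1)
      have h2 : 1 + (n - 1) = n := by omega
      intro σ hσ
      have h3 := h1 σ hσ
      rwa [h2] at h3
    have hεn : ∀ c, ε c ∈ AA S n hn := by
      intro c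
      have h1 : ε c = (ε c * bu c ^ p ^ (n - 1)) / bu c ^ p ^ (n - 1) := by
        rw [mul_div_cancel_right]
      rw [h1]
      exact div_mem (Cl.mono (hX c) (Nat.le_succ n)) (hbun c)
    let G : Subgroup (𝓞 K)ˣ := (AA S n hn).comap U
    have hG : ∀ c, e c ∈ G := by
      intro c
      change U (e c) ∈ AA S n hn
      rw [hUe]
      exact hεn c
    have hle := card_le hp hp2 K hun G e hG (by
      rintro c c' ⟨w, hw, hwp⟩
      have h1 : ε c / ε c' = U w ^ p := by
        rw [← hUe, ← hUe, ← map_div, hwp, map_pow]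
      have h2 : U w ^ p ∈ AA S (n + 1) (by omega) := by
        have h3 := pow_AA hPW hp2 hn (show U w ∈ AA S n hn from hw) 1
        rwa [pow_one] at h3
      have h3 : (bu c / bu c') ^ p ^ (n - 1) =
          (ε c * bu c ^ p ^ (n - 1)) / (ε c' * bu c' ^ p ^ (n - 1)) / (ε c / ε c') := by
        have h20 : ∀ x y a b : Kˣ, x / y = (a * x) / (b * y) / (a / b) := by
          intro x y a b
          rw [mul_div_mul_comm, mul_div_cancel_left]
        rw [div_pow]
        exact h20 _ _ _ _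
      have h4 : (bu c / bu c') ^ p ^ (n - 1) ∈ AA S (n + 1) (by omega) := by
        rw [h3, h1]
        exact div_mem (div_mem (hX c) (hX c')) h2
      have h5 : bu c / bu c' ∈ AA S 1 le_rfl := div_mem (hbu c) (hbu c')
      have h6 : b c - b c' ∈ I := by
        rw [hI]
        intro σ hσ
        have hσ' : σ.comp (algebraMap K K) ∈ S := by rw [hcomp]; exact hσ
        have h7 := h5 σ hσ'
        rw [pow_one] at h7
        have h8 := h4 σ hσ'
        rw [Units.val_pow_eq_pow_val, map_pow, hPW p hp2 _ h7 (n - 1)] at h8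
        have hpos : (0 : ℝ) < ((p : ℝ)⁻¹) ^ (n - 1) := by
          have : (0 : ℝ) < p := by exact_mod_cast hp.pos
          positivity
        have h9 : ‖σ ((bu c / bu c' : Kˣ) : K) - 1‖ ≤ ((p : ℝ)⁻¹) ^ 2 := by
          have h10 : ((p : ℝ)⁻¹) ^ (n + 1) = ((p : ℝ)⁻¹) ^ (n - 1) * ((p : ℝ)⁻¹) ^ 2 := by
            rw [← pow_add]
            congr 1
            omega
          rw [h10] at h8
          exact le_of_mul_le_mul_left h8 hpos
        have h11 : σ ((bu c / bu c' : Kˣ) : K) - 1 =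
            σ (p : K) * σ ((b c - b c' : 𝓞 K) : K) / σ (bu c' : K) := by
          have h12 : σ (bu c' : K) ≠ 0 := (map_ne_zero σ).2 (hβK0 c')
          rw [Units.val_div_eq_div_val, map_div₀, eq_div_iff h12, sub_mul, div_mul_cancel₀ _ h12,
            one_mul, ← map_sub, ← map_mul]
          congr 1
          change ((β c : 𝓞 K) : K) - ((β c' : 𝓞 K) : K) = (p : K) * algebraMap (𝓞 K) K (b c - b c')
          rw [hβK, hβK, map_sub]
          ring
        have h15 : ‖σ (bu c' : K)‖ = 1 := cl_norm le_rfl (hβcl c') σ hσ'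
        rw [h11, norm_div, norm_mul, norm_p, h15, div_one, sq] at h9
        have hpp : (0 : ℝ) < (p : ℝ)⁻¹ := by
          have : (0 : ℝ) < p := by exact_mod_cast hp.pos
          positivity
        have h13 := le_of_mul_le_mul_left h9 hpp
        have h14 := pinv_lt (p := p) le_rfl
        rw [pow_one] at h14
        exact h13.trans_lt h14
      rw [← hb c, ← hb c']
      exact (Ideal.Quotient.eq).2 h6)
    rw [hcard] at hle
    have h1 := (Nat.pow_le_pow_iff_right hp.one_lt).1 hle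
    omega
  obtain ⟨β, hβ0, hβcl, hβ⟩ := key
  refine ⟨β, hβ0, hβcl, fun ε hε j hj => ?_⟩
  by_contra hnd
  have hβK0 : (β : K) ≠ 0 := by
    intro h
    apply hβ0
    apply RingOfIntegers.ext
    rw [h]
    rfl
  let bu : Kˣ := Units.mk0 _ hβK0
  have hbu : bu ∈ AA S 1 le_rfl := hβcl
  have hj0 : j ≠ 0 := by
    rintro rfl
    exact hnd (dvd_zero _)
  have hfm : FiniteMultiplicity (p : ℤ) j := by
    rw [Int.finiteMultiplicity_iff]
    refine ⟨?_, hj0⟩
    rw [Int.natAbs_natCast]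
    exact hp.one_lt.ne'
  obtain ⟨j', hj', hpj⟩ := hfm.exists_eq_pow_mul_and_not_dvd
  generalize multiplicity (p : ℤ) j = a at hj'
  have han : a < n := by
    by_contra h
    push Not at h
    exact hnd (hj' ▸ (pow_dvd_pow _ h).mul_right _)
  obtain ⟨s, t, hst⟩ : IsCoprime (p : ℤ) j' :=
    ((Nat.prime_iff_prime_int.1 hp).coprime_iff_not_dvd).2 hpj
  have hx : ε * bu ^ j ∈ AA S (n + 1) (by omega) := by
    rw [mem_AA, Units.val_mul, Units.val_zpow_eq_zpow_val]
    exact hj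
  have hy : bu ^ p ^ n ∈ AA S (n + 1) (by omega) := by
    have h1 := pow_AA hPW hp2 le_rfl hbu n
    have h2 : 1 + n = n + 1 := by omega
    intro σ hσ
    have h3 := h1 σ hσ
    rwa [h2] at h3
  have hz : ((ε * bu ^ j) ^ p ^ (n - 1 - a)) ^ t * (bu ^ p ^ n) ^ s ∈ AA S (n + 1) (by omega) :=
    mul_mem (zpow_mem (pow_mem hx _) _) (zpow_mem hy _)
  have hz2 : ((ε * bu ^ j) ^ p ^ (n - 1 - a)) ^ t * (bu ^ p ^ n) ^ s =
      (ε ^ p ^ (n - 1 - a)) ^ t * bu ^ p ^ (n - 1) := by
    rw [mul_pow, mul_zpow, mul_assoc]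
    congr 1
    rw [← zpow_natCast (bu ^ j), ← zpow_mul, ← zpow_mul, ← zpow_natCast bu (p ^ n), ← zpow_mul,
      ← zpow_add, ← zpow_natCast bu (p ^ (n - 1))]
    congr 1
    rw [hj']
    push_cast
    have e1 : (p : ℤ) ^ a * (p : ℤ) ^ (n - 1 - a) = (p : ℤ) ^ (n - 1) := by
      rw [← pow_add]
      congr 1
      omega
    have e2 : (p : ℤ) ^ n = (p : ℤ) ^ (n - 1) * p := by
      rw [← pow_succ]
      congr 1
      omega
    rw [e2]
    linear_combination (j' * t) * e1 + ((p : ℤ) ^ (n - 1)) * hst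
  rw [hz2] at hz
  refine hβ ((ε ^ p ^ (n - 1 - a)) ^ t) (zpow_mem (pow_mem hε _) _) ?_
  rw [mem_AA, Units.val_mul, Units.val_pow_eq_pow_val] at hz
  exact hz

end Pool.Agent.Q277.SG
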