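import Pool.Agent.Q5.SG.Stm2

/-! # Project SG, job BT, first part: units modulo `p`-th powers -/

set_option autoImplicit false
set_option linter.all false

namespace Pool.Agent.Q277.SG

open NumberField Module Pool.Agent.Y18.LC NumberField.Units.dirichletUnitTheorem

/-- A family of units in a subgroup `G`, pairwise inequivalent modulo `p`-th powers of elements of `G`,
has at most `p ^ rank` elements. -/
theorem card_le {p : ℕ} (hp : p.Prime) (hp2 : p ≠ 2) (K : Type) [Field K] [NumberField K]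
    (hun : Unram K p) (G : Subgroup (𝓞 K)ˣ) {ι : Type} (f : ι → (𝓞 K)ˣ) (hf : ∀ i, f i ∈ G)
    (hinj : ∀ i j, (∃ w ∈ G, f i / f j = w ^ p) → i = j) :
    Nat.card ι ≤ p ^ NumberField.Units.rank K := by
  classical
  haveI : Fact p.Prime := ⟨hp⟩
  haveI : NeZero p := ⟨hp.ne_zero⟩
  let q : Additive (𝓞 K)ˣ →+ logSpace K := Units.logEmbedding K
  let N : Submodule ℤ (logSpace K) :=
    AddSubgroup.toIntSubmodule ((Subgroup.toAddSubgroup G).map q)
  have hNle : N ≤ Units.unitLattice K := by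
    rintro _ ⟨x, -, rfl⟩
    exact ⟨x, trivial, rfl⟩
  obtain ⟨n, b⟩ := Submodule.basisOfPidOfLE hNle (Module.Free.chooseBasis ℤ (Units.unitLattice K))
  have hn : n ≤ Units.rank K := by
    have h1 : finrank ℤ N = n := by
      rw [finrank_eq_card_basis b, Fintype.card_fin]
    have h2 : finrank ℤ N ≤ finrank ℤ (Units.unitLattice K) := Submodule.finrank_mono hNle
    rw [h1, Units.unitLattice_rank] at h2
    exact h2
  have hmem : ∀ i, q (Additive.ofMul (f i)) ∈ N := fun i => ⟨Additive.ofMul (f i), hf i, rfl⟩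
  let Φ : ι → (Fin n → ZMod p) := fun i k => ((b.repr ⟨q (Additive.ofMul (f i)), hmem i⟩ k : ℤ) : ZMod p)
  have hΦ : Function.Injective Φ := by
    intro i j hij
    apply hinj
    -- the difference is divisible by `p`
    have h1 : ∀ k, ∃ c : ℤ, b.repr ⟨q (Additive.ofMul (f i)), hmem i⟩ k -
        b.repr ⟨q (Additive.ofMul (f j)), hmem j⟩ k = p * c := by
      intro k
      have h2 := congrFun hij k
      have h3 := (ZMod.intCast_eq_intCast_iff _ _ _).1 h2
      obtain ⟨c, hc⟩ := h3.symm.dvd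
      exact ⟨c, hc⟩
    choose c hc using h1
    obtain ⟨z, hz⟩ : ∃ z : N, z = ∑ k, c k • b k := ⟨_, rfl⟩
    have h4 : (⟨q (Additive.ofMul (f i)), hmem i⟩ : N) - ⟨q (Additive.ofMul (f j)), hmem j⟩ =
        (p : ℤ) • z := by
      apply b.repr.injective
      ext k
      rw [map_sub, Finsupp.sub_apply, hc, map_smul, Finsupp.smul_apply, hz, smul_eq_mul]
      congr 1
      rw [b.repr_sum_self]
    obtain ⟨w, hw, hwz⟩ := z.2
    obtain ⟨W, hW⟩ : ∃ W : (𝓞 K)ˣ, Additive.ofMul W = w := ⟨w.toMul, rfl⟩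
    have hWG : W ∈ G := by
      rw [← hW] at hw
      exact hw
    have h5 : q (Additive.ofMul (f i)) - q (Additive.ofMul (f j)) = (p : ℤ) • q w := by
      have h6 := congrArg Subtype.val h4
      rw [hwz]
      exact h6
    have h7 : q (Additive.ofMul (f i / f j / W ^ p)) = 0 := by
      have h8 : Additive.ofMul (f i / f j / W ^ p) =
          Additive.ofMul (f i) - Additive.ofMul (f j) - (p : ℤ) • w := by
        rw [← hW, ofMul_div, ofMul_div, ofMul_pow, natCast_zsmul]
      rw [h8, map_sub, map_sub, h5, map_zsmul, sub_self]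
    obtain ⟨ζ, hζ⟩ : ∃ ζ, ζ = f i / f j / W ^ p := ⟨_, rfl⟩
    have hζt : ζ ∈ Units.torsion K := by
      rw [← hζ] at h7
      exact (logEmbedding_eq_zero_iff).1 h7
    have hζG : ζ ∈ G := by
      rw [hζ]
      exact G.div_mem (G.div_mem (hf i) (hf j)) (G.pow_mem hWG p)
    have hfin : IsOfFinOrder ζ := (CommGroup.mem_torsion ζ).1 hζt
    have hord : 0 < orderOf ζ := hfin.orderOf_pos
    have hcop : Nat.Coprime p (orderOf ζ) := by
      rw [Nat.Prime.coprime_iff_not_dvd hp]
      rintro ⟨m, hm⟩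
      have hm0 : 0 < m := by
        rcases Nat.eq_zero_or_pos m with h | h
        · rw [h, mul_zero] at hm; omega
        · exact h
      have h10 : ((ζ ^ m : (𝓞 K)ˣ) : 𝓞 K) ^ p ^ 1 = 1 := by
        rw [pow_one, ← Units.val_pow_eq_pow_val, ← pow_mul, mul_comm m p, ← hm, pow_orderOf_eq_one,
          Units.val_one]
      have h11 := no_torsion' hp hp2 hun 1 h10
      have h12 : ζ ^ m = 1 := Units.ext h11
      have h13 := Nat.le_of_dvd hm0 (orderOf_dvd_of_pow_eq_one h12)
      have := hp.two_le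
      nlinarith
    obtain ⟨u, v, huv⟩ := (Nat.isCoprime_iff_coprime.2 hcop)
    have h14 : ζ = (ζ ^ u) ^ p := by
      have h15 : ζ = ζ ^ (u * p + v * orderOf ζ) := by rw [huv, zpow_one]
      rw [zpow_add, zpow_mul, zpow_mul' ζ v, zpow_natCast, zpow_natCast, pow_orderOf_eq_one,
        one_zpow, mul_one] at h15
      exact h15
    refine ⟨W * ζ ^ u, G.mul_mem hWG (G.zpow_mem hζG u), ?_⟩
    rw [mul_pow, ← h14, hζ, mul_div_cancel]
  have h16 : Nat.card ι ≤ Nat.card (Fin n → ZMod p) := Nat.card_le_card_of_injective Φ hΦ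
  rw [Nat.card_fun, Nat.card_zmod, Nat.card_fin] at h16
  exact h16.trans (Nat.pow_le_pow_right hp.pos hn)

end Pool.Agent.Q277.SG
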